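import Pool.Agent.N504.RS.HerD

/-!
# Betti numbers above the middle dimension for all the full subcomplexes of coloured subdivisions

Let `X` be a finite simplicial complex embedded in the sphere of dimension `2 d`, and colour its vertices by finitely
many colours, with any number of monochromatic simplices. Let `cs X col` be the graph of the subdivision of `X` in
which only the monochromatic simplices are (barycentrically) subdivided; if the missing faces of `X` have at most two
colours (in particular if `X` is a flag complex) then this is a flag complex homeomorphic to `X`. The colouring is
called small if there are numbers `a c` with sum at most `d + 1` such that the simplices with all vertices of colour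
`c` have at most `2 a c` vertices. For example one colour is small if `dim X ≤ 2 d + 1`; then `cs X col` is the
barycentric subdivision of `X`.

We prove the vanishing of the `ℓ²`-homology above the degree `d`, and the corresponding statement on the growth of the
ordinary Betti numbers, for every full subcomplex `A` of `cs X col`. If `X` is piecewise linearly embedded in the
sphere of dimension `n - 1` (`n = 2 d` or `n = 2 d + 1`) then so is `A`, the Davis complex of the right-angled Coxeter
group of `A` thickens to a contractible `n`-manifold with boundary, and the torsion-free subgroups of finite index of
this group are the fundamental groups of compact aspherical `n`-manifolds.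

New ingredients of the proof: the mod `2` van Kampen obstruction of the deleted join passes to links, and so the upper
links of the simplices with an even number of vertices satisfy the hypotheses again, in a smaller dimension.
-/

set_option autoImplicit false

namespace Pool.Agent.Results.MP_8fe54c_gt.AllFullSubcomplexes

open Pool.Agent.W907.SG Pool.Agent.Y132.SI Pool.Agent.R782.Bal

/-- Let `X` be a finite simplicial complex embedded in the sphere of dimension `2 d`, with a small colouring of its
vertices, and let `A` be a set of vertices of its subdivision `cs X col`. (1) There are no nonzero `ℓ²` harmonic
`i`-chains on the Davis complex of the right-angled Coxeter group of the full subcomplex spanned by `A` for `i > d`.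
(2) For each `ε > 0` there is a finite set `E` of nontrivial elements of this group `W` such that for every subgroup
`H` of finite index which contains no conjugate of an element of `E`, and for all `i > d`, the `i`-th real Betti
number of `H` is at most `ε [W : H]`. -/
theorem result : ∀ (d N k : ℕ) (X : Finset (Finset (Fin N))) (col : Fin N → Fin k),
    (∀ σ ∈ X, ∀ τ : Finset (Fin N), τ ⊆ σ → τ ∈ X) → Small d X col → EmbX d X col →
    ∀ (A : Set (MF X col)) [Fintype A] [LinearOrder A],
    (∀ i : ℕ, d < i → L2Van ((cs X col).induce A) i) ∧
    ∀ ε : ℝ, 0 < ε → ∃ E : Finset (W ((cs X col).induce A)), (1 : W ((cs X col).induce A)) ∉ E ∧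
      ∀ H : Subgroup (W ((cs X col).induce A)), H.FiniteIndex →
        (∀ g ∈ E, ∀ x : W ((cs X col).induce A), x * g * x⁻¹ ∉ H) →
        ∀ i : ℕ, d < i → (Module.finrank ℝ (HInv ((cs X col).induce A) H i) : ℝ) ≤ ε * H.index := by
  intro d N k X col hX hs hE A _ _
  have h : ∀ i : ℕ, d < i → L2Van ((cs X col).induce A) i := fun i hi =>
    Pool.Agent.N504.RS.lv_cs_all hX hs hE A i hi _ _
  refine ⟨h, fun ε hε => ?_⟩
  obtain ⟨E, h1, h2⟩ := Pool.Agent.R781.VS.growth_of_above ((cs X col).induce A) (2 * d + 1)
    (fun i hi => h i (by omega)) ε hε
  exact ⟨E, h1, fun H hH hE i hi => h2 H hH hE i (by omega)⟩

end Pool.Agent.Results.MP_8fe54c_gt.AllFullSubcomplexes
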